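import Pool.Agent.H283.HT.Stm

/-!
# Lighting is an open condition (helper807)
-/

set_option autoImplicit false

namespace Pool.Agent.H807.HTOPEN

open Pool.Agent.H283.HT

theorem isOpen_lit (K : Set P3) (d : P3) : IsOpen {x : P3 | d ∈ C K x} := by
  have h : {x : P3 | d ∈ C K x} =
      ⋃ t ∈ Set.Ioi (0 : ℝ), (fun x : P3 => x + t • d) ⁻¹' interior K := by
    ext x
    simp only [C, Set.mem_ofPred_eq, Set.mem_iUnion, Set.mem_Ioi, Set.mem_preimage, exists_prop]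
  rw [h]
  refine isOpen_biUnion fun t _ => ?_
  exact isOpen_interior.preimage (continuous_id.add continuous_const)

theorem OPEN_done : S_OPEN := by
  intro K q hK hq a b hab hG
  obtain ⟨d, hd⟩ := hG
  set B : Set (ℝ × P3) := {z | z.1 ∈ Set.Icc (a - 1) (b + 1) ∧ z.2 ∈ K ∧ z.2.1 = q z.1 ∧
    d ∉ C K z.2} with hB
  have hBc : IsCompact B := by
    have h1 : IsCompact (Set.Icc (a - 1) (b + 1) ×ˢ K) := isCompact_Icc.prod hK.comp
    refine h1.of_isClosed_subset ?_ fun z hz => ⟨hz.1, hz.2.1⟩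
    have h2 : B = (Set.Icc (a - 1) (b + 1) ×ˢ K) ∩ {z : ℝ × P3 | z.2.1 = q z.1} ∩
        (Prod.snd ⁻¹' {x : P3 | d ∈ C K x})ᶜ := by
      ext z
      constructor
      · rintro ⟨h3, h4, h5, h6⟩
        exact ⟨⟨⟨h3, h4⟩, h5⟩, h6⟩
      · rintro ⟨⟨⟨h3, h4⟩, h5⟩, h6⟩
        exact ⟨h3, h4, h5, h6⟩
    rw [h2]
    refine (h1.isClosed.inter ?_).inter ((isOpen_lit K d).preimage continuous_snd).isClosed_compl
    exact isClosed_eq (continuous_fst.comp continuous_snd) (hq.cont.comp continuous_fst)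
  have hT : IsClosed (Prod.fst '' B) := (hBc.image continuous_fst).isClosed
  have hsub : Set.Icc a b ⊆ (Prod.fst '' B)ᶜ := by
    rintro θ hθ ⟨z, hz, rfl⟩
    exact hz.2.2.2 (hd z.1 hθ.1 hθ.2 z.2 hz.2.1 hz.2.2.1)
  obtain ⟨δ, hδ, hδ'⟩ := isCompact_Icc.exists_thickening_subset_open hT.isOpen_compl hsub
  refine ⟨min (δ / 2) 1, by positivity, d, fun θ h1 h2 x hx hxq => ?_⟩
  have e1 : min (δ / 2) 1 ≤ δ / 2 := min_le_left _ _
  have e2 : min (δ / 2) 1 ≤ 1 := min_le_right _ _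
  have hθ : θ ∈ Metric.thickening δ (Set.Icc a b) := by
    rw [Metric.mem_thickening_iff]
    rcases lt_or_ge θ a with h | h
    · refine ⟨a, ⟨le_rfl, hab⟩, ?_⟩
      rw [Real.dist_eq, abs_sub_comm, abs_of_pos (by linarith)]
      linarith
    · rcases lt_or_ge b θ with h' | h'
      · refine ⟨b, ⟨hab, le_rfl⟩, ?_⟩
        rw [Real.dist_eq, abs_of_pos (by linarith)]
        linarith
      · refine ⟨θ, ⟨h, h'⟩, ?_⟩
        rw [dist_self]
        exact hδ
  by_contra hnot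
  exact hδ' hθ ⟨(θ, x), ⟨⟨by linarith, by linarith⟩, hx, hxq, hnot⟩, rfl⟩

end Pool.Agent.H807.HTOPEN
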