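import Pool.Agent.H85.AK.Stmt3

/-!
# Lower bound for digit sums; pigeonhole for a regular pair of scales (helper807)
-/

set_option autoImplicit false

namespace Pool.Agent.H807.AK

open Finset
open Pool.Agent.H85.AK

/-- the digit sums of `g j` are digit sums of `g` -/
theorem digs_sub {k : ℕ} (g : Fin k → ℂ) (j : Fin k) {D n n' : ℕ} (hD : 2 ≤ D) (hn : 1 ≤ n)
    (hn' : n' ≤ n) : Stmt.digs (g j) 2 n' ⊆ Stmt3.dg g D n := by
  classical
  intro z hz
  unfold Stmt.digs at hz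
  rw [Finset.mem_image] at hz
  obtain ⟨a, -, rfl⟩ := hz
  unfold Stmt3.dg
  rw [Finset.mem_image]
  let o : Fin n := ⟨0, hn⟩
  let e : Fin n' → (Fin k → Fin n) := fun i => Function.update (fun _ => o) j (Fin.castLE hn' i)
  have he : Function.Injective e := by
    intro i i' h
    have h1 := congrFun h j
    simp only [e, Function.update_self] at h1
    exact Fin.castLE_injective hn' h1
  let d : (Fin k → Fin n) → Fin D := fun b =>
    if h : ∃ i, e i = b then Fin.castLE hD (a h.choose) else ⟨0, by omega⟩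
  have hd1 : ∀ i, d (e i) = Fin.castLE hD (a i) := by
    intro i
    have hex : ∃ i', e i' = e i := ⟨i, rfl⟩
    simp only [d]
    rw [dif_pos hex]
    congr 2
    exact he hex.choose_spec
  have hd2 : ∀ b, b ∉ Finset.univ.image e → ((d b : ℕ) : ℂ) = 0 := by
    intro b hb
    have hex : ¬ ∃ i', e i' = b := fun ⟨i', hi'⟩ =>
      hb (Finset.mem_image.2 ⟨i', Finset.mem_univ _, hi'⟩)
    simp only [d]
    rw [dif_neg hex]
    simp
  refine ⟨d, Finset.mem_univ _, ?_⟩
  have h1 : ∑ b : Fin k → Fin n, ((d b : ℕ) : ℂ) * ∏ i, g i ^ (b i : ℕ) =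
      ∑ b ∈ Finset.univ.image e, ((d b : ℕ) : ℂ) * ∏ i, g i ^ (b i : ℕ) := by
    symm
    refine Finset.sum_subset (Finset.subset_univ _) fun b _ hb => ?_
    rw [hd2 b hb, zero_mul]
  rw [h1, Finset.sum_image fun x _ y _ h => he h]
  refine Finset.sum_congr rfl fun i _ => ?_
  rw [hd1]
  have h2 : ∏ l, g l ^ ((e i l : Fin n) : ℕ) = g j ^ (i : ℕ) := by
    rw [Finset.prod_eq_single j]
    · simp only [e, Function.update_self]
      rfl
    · intro l _ hl
      simp only [e]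
      rw [Function.update_of_ne hl]
      exact pow_zero _
    · intro h
      exact absurd (Finset.mem_univ j) h
  rw [h2]
  rfl

theorem two_le_card {k : ℕ} (g : Fin k → ℂ) (j : Fin k) {D n : ℕ} (hD : 2 ≤ D) (hn : 1 ≤ n) :
    2 ≤ (Stmt3.dg g D n).card := by
  have h := digs_sub g j hD hn hn
  have h0 : (0 : ℂ) ∈ Stmt.digs (g j) 2 1 := by
    unfold Stmt.digs
    exact Finset.mem_image.2 ⟨fun _ => 0, Finset.mem_univ _, by simp⟩
  have h1 : (1 : ℂ) ∈ Stmt.digs (g j) 2 1 := by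
    unfold Stmt.digs
    exact Finset.mem_image.2 ⟨fun _ => 1, Finset.mem_univ _, by simp⟩
  exact Finset.one_lt_card.2 ⟨0, h h0, 1, h h1, zero_ne_one⟩

theorem s_low : Pool.Agent.H85.AK.Stmt3.S_low := by
  intro k g j hg
  obtain ⟨k0, hk0, hg⟩ := hg
  have hk0R : (0 : ℝ) < k0 := by exact_mod_cast hk0
  have hl2 : 0 < Real.log 2 := Real.log_pos (by norm_num)
  refine ⟨Real.log 2 / (2 * k0), by positivity, fun D n hD hn => ?_⟩
  have ha : Real.log 2 ≤ Real.log ((Stmt3.dg g D n).card : ℝ) := by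
    refine Real.log_le_log (by norm_num) ?_
    exact_mod_cast two_le_card g j hD hn
  have hb : ((n / k0 : ℕ) : ℝ) * Real.log 2 ≤ Real.log ((Stmt3.dg g D n).card : ℝ) := by
    rw [← Real.log_pow]
    refine Real.log_le_log (by positivity) ?_
    have h1 := (hg (n / k0)).trans
      (Finset.card_le_card (digs_sub g j hD hn (Nat.mul_div_le n k0)))
    exact_mod_cast h1
  have hn1 : (n : ℝ) ≤ k0 * (((n / k0 : ℕ) : ℝ) + 1) := by
    have h2 : n < k0 * (n / k0 + 1) := Nat.lt_mul_div_succ n hk0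
    exact_mod_cast h2.le
  have h3 : Real.log 2 / (2 * k0) * n ≤ (((n / k0 : ℕ) : ℝ) + 1) / 2 * Real.log 2 := by
    rw [div_mul_eq_mul_div, div_le_iff₀ (by positivity)]
    have h4 := mul_le_mul_of_nonneg_left hn1 hl2.le
    linarith
  linarith

theorem s_pigeon : Pool.Agent.H85.AK.Stmt3.S_pigeon := by
  intro u c C η hc hη hη1 hu
  have hC : 0 < C := by
    obtain ⟨h1, h2⟩ := hu 1 1 le_rfl le_rfl
    push_cast at h1 h2
    linarith
  have hρ : 1 < (1 + η) / (1 + η / 2) := by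
    rw [one_lt_div (by positivity)]
    linarith
  obtain ⟨T, hT⟩ := pow_unbounded_of_one_lt (2 * C / c) hρ
  refine ⟨T, fun N => ?_⟩
  obtain ⟨n1, hN, hT1, hn4⟩ : ∃ n1 : ℕ, N ≤ n1 ∧ T + 1 ≤ n1 ∧ 4 / η ≤ n1 :=
    ⟨max N (max (T + 1) ⌈4 / η⌉₊), le_max_left _ _, (le_max_left _ _).trans (le_max_right _ _),
      (Nat.le_ceil _).trans (by exact_mod_cast (le_max_right _ _).trans (le_max_right _ _))⟩
  obtain ⟨ν, h0, hs⟩ : ∃ ν : ℕ → ℕ, ν 0 = n1 ∧ ∀ s, ν (s + 1) = ν s + ⌈η / 4 * ν s⌉₊ :=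
    ⟨fun s => Nat.rec n1 (fun _ x => x + ⌈η / 4 * x⌉₊) s, rfl, fun s => rfl⟩
  have hge : ∀ s, n1 ≤ ν s := by
    intro s
    induction s with
    | zero => rw [h0]
    | succ s ih => rw [hs]; omega
  have hge1 : ∀ s, 1 ≤ ν s := fun s => (by omega : 1 ≤ n1).trans (hge s)
  have hδ : ∀ s, 1 ≤ η / 4 * ν s := by
    intro s
    have h1 : 4 / η ≤ ν s := hn4.trans (by exact_mod_cast hge s)
    rw [div_le_iff₀ hη] at h1
    linarith
  have hup : ∀ s, (ν s : ℝ) ≤ (1 + η / 2) ^ s * n1 := by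
    intro s
    induction s with
    | zero => rw [h0, pow_zero, one_mul]
    | succ s ih =>
      rw [hs, pow_succ]
      push_cast
      have h1 := Nat.ceil_lt_add_one (zero_le_one.trans (hδ s))
      have h2 := hδ s
      have h3 := mul_le_mul_of_nonneg_left ih (by positivity : 0 ≤ 1 + η / 2)
      linarith
  by_contra hcon
  push Not at hcon
  have hstep : ∀ s < T, (1 + η) * u (s + 1) (ν s) < u (s + 2) (ν (s + 1)) := by
    intro s hsT
    rw [hs]
    refine hcon (s + 1) (ν s) ⌈η / 4 * ν s⌉₊ (by omega) (by omega) (hN.trans (hge s)) ?_ ?_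
      (Nat.le_ceil _)
    · exact Nat.one_le_ceil_iff.2 (by linarith [hδ s])
    · rw [Nat.ceil_le]
      have h1 : (0 : ℝ) ≤ ν s := Nat.cast_nonneg _
      nlinarith
  have hlow : ∀ s ≤ T, (1 + η) ^ s * (c * n1) ≤ u (s + 1) (ν s) := by
    intro s
    induction s with
    | zero =>
      intro _
      rw [pow_zero, one_mul, h0]
      exact (hu 1 n1 le_rfl (by omega)).1
    | succ s ih =>
      intro hsT
      have h1 := ih (by omega)
      have h2 := hstep s (by omega)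
      have h3 := mul_le_mul_of_nonneg_left h1 (by positivity : 0 ≤ 1 + η)
      rw [pow_succ]
      calc (1 + η) ^ s * (1 + η) * (c * n1) = (1 + η) * ((1 + η) ^ s * (c * n1)) := by ring
        _ ≤ (1 + η) * u (s + 1) (ν s) := h3
        _ ≤ u (s + 2) (ν (s + 1)) := h2.le
  have h1 := hlow T le_rfl
  have h2 := (hu (T + 1) (ν T) (by omega) (hge1 T)).2
  have h3 := hup T
  have hT1' : ((T : ℝ) + 1) ≤ n1 := by exact_mod_cast hT1
  have hn1p : (0 : ℝ) < n1 := by
    have : (0 : ℝ) ≤ T := Nat.cast_nonneg _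
    linarith
  have h4 : (1 : ℝ) ≤ (1 + η / 2) ^ T := one_le_pow₀ (by linarith)
  have h5 : (ν T : ℝ) + ((T + 1 : ℕ) : ℝ) ≤ 2 * ((1 + η / 2) ^ T * n1) := by
    push_cast
    have h6 : (n1 : ℝ) ≤ (1 + η / 2) ^ T * n1 := le_mul_of_one_le_left hn1p.le h4
    linarith
  have h7 : (1 + η) ^ T * (c * n1) ≤ C * (2 * ((1 + η / 2) ^ T * n1)) :=
    h1.trans (h2.trans (mul_le_mul_of_nonneg_left h5 hC.le))
  rw [div_pow, lt_div_iff₀ (by positivity), div_mul_eq_mul_div, div_lt_iff₀ hc] at hT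
  have h8 := mul_lt_mul_of_pos_right hT hn1p
  linarith

end Pool.Agent.H807.AK
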