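import Pool.Agent.H979.FR.Stm

/-!
# The frog model with death: one particle visits a cell (helper807)
-/

set_option autoImplicit false

open MeasureTheory ProbabilityTheory Finset
open scoped ENNReal NNReal

namespace Pool.Agent.H807

open Pool.Agent.H979.FR

theorem fr_hit (h1 : S_SM) (h2 : S_EXP) : S_HIT := by
  intro V _ _ _ G _ d hd hdeg τ m φ hφ0 hφ hτ hm1 hm2 π hπ t ht x A S hAS
  set B : Set (ℕ × V → V) := {c | ∃ j < m, path x c (j * τ) ∈ A ∧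
      ∀ i ≤ τ, path x c (j * τ + i) = φ (path x c (j * τ)) i} with hB
  set E : Set (ℕ → ℝ) := {E | ∀ n ≤ m * τ, ∑ i ∈ range n, E i ≤ t} with hE
  have hsub : E ×ˢ B ⊆ {ξ : H979.FR.Part V | ∃ v ∈ S, ∀ y, π y = v → y ∈ visits t x ξ} := by
    rintro ξ ⟨hξ1, j, hj, hjA, hjφ⟩
    refine ⟨π (path x ξ.2 (j * τ)), hAS _ hjA, fun y hy => ?_⟩
    obtain ⟨i, hi, hiy⟩ := hπ _ y hy
    refine ⟨j * τ + i, hξ1 _ ?_, ?_⟩
    · have h3 : (j + 1) * τ ≤ m * τ := Nat.mul_le_mul_right τ hj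
      have h4 : (j + 1) * τ = j * τ + τ := by ring
      omega
    · rw [hjφ i hi, hiy]
  have hEp : (1 / 2 : ℝ≥0∞) ≤ clockLaw E := h2 (m * τ) t ht
  have hBp := h1 V G d hd hdeg τ m φ hφ0 hφ hτ hm1 hm2 x A
  refine le_trans ?_ (measure_mono hsub)
  unfold partLaw
  rw [Measure.prod_prod]
  refine le_trans ?_ (mul_le_mul' hEp hBp)
  have h5 : (1 / 2 : ℝ≥0∞) = ENNReal.ofReal (1 / 2) := by
    rw [ENNReal.ofReal_div_of_pos (by norm_num), ENNReal.ofReal_one, ENNReal.ofReal_ofNat]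
  rw [h5, ← ENNReal.ofReal_mul (by norm_num)]
  refine ENNReal.ofReal_le_ofReal (le_of_eq ?_)
  ring

end Pool.Agent.H807
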