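import Pool.Agent.H867.FT.Gen2

/-!
# Weierstrass elimination in the ring of formal power series (helper807)
-/

set_option autoImplicit false

namespace Pool.Agent.H807.WEI

open MvPowerSeries

variable {k : Type} [Field k] {d : ℕ}

/-- power series in `d + 1` variables -/
abbrev P (k : Type) [Field k] (d : ℕ) : Type := MvPowerSeries (Fin (d + 1)) k

/-- the degree in the first `d` variables -/
def dl (n : Fin (d + 1) →₀ ℕ) : ℕ := ∑ i : Fin d, n i.castSucc

theorem dl_add (a b : Fin (d + 1) →₀ ℕ) : dl (a + b) = dl a + dl b := by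
  unfold dl
  rw [← Finset.sum_add_distrib]
  rfl

theorem dl_single (j : ℕ) : dl (Finsupp.single (Fin.last d) j) = 0 := by
  unfold dl
  refine Finset.sum_eq_zero fun i _ => ?_
  rw [Finsupp.single_apply, if_neg]
  exact (Fin.castSucc_lt_last i).ne'

theorem eq_single_of_dl {n : Fin (d + 1) →₀ ℕ} (h : dl n = 0) :
    n = Finsupp.single (Fin.last d) (n (Fin.last d)) := by
  unfold dl at h
  rw [Finset.sum_eq_zero_iff] at h
  ext i
  refine Fin.lastCases ?_ (fun j => ?_) i
  · rw [Finsupp.single_apply, if_pos rfl]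
  · rw [h j (Finset.mem_univ _), Finsupp.single_apply, if_neg (Fin.castSucc_lt_last j).ne']

/-- the order in the first `d` variables is at least `r` -/
def Od (r : ℕ) (f : P k d) : Prop := ∀ n, dl n < r → coeff n f = 0

theorem Od.add {r : ℕ} {f g : P k d} (hf : Od r f) (hg : Od r g) : Od r (f + g) := by
  intro n hn
  rw [map_add, hf n hn, hg n hn, add_zero]

theorem Od.neg {r : ℕ} {f : P k d} (hf : Od r f) : Od r (-f) := by
  intro n hn
  rw [map_neg, hf n hn, neg_zero]

theorem Od.sub {r : ℕ} {f g : P k d} (hf : Od r f) (hg : Od r g) : Od r (f - g) := by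
  intro n hn
  rw [map_sub, hf n hn, hg n hn, sub_zero]

theorem Od.mono {r s : ℕ} {f : P k d} (hf : Od r f) (h : s ≤ r) : Od s f :=
  fun n hn => hf n (hn.trans_le h)

theorem Od.mul {r s : ℕ} {f g : P k d} (hf : Od r f) (hg : Od s g) : Od (r + s) (f * g) := by
  classical
  intro n hn
  rw [coeff_mul]
  refine Finset.sum_eq_zero fun x hx => ?_
  rw [Finset.HasAntidiagonal.mem_antidiagonal] at hx
  rw [← hx, dl_add] at hn
  rcases lt_or_ge (dl x.1) r with h | h
  · rw [hf _ h, zero_mul]
  · rw [hg _ (by omega), mul_zero]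

theorem od_zero (f : P k d) : Od 0 f := fun _ hn => absurd hn (Nat.not_lt_zero _)

/-- the quotient of the division by `X_last ^ e` -/
noncomputable def tau (e : ℕ) (f : P k d) : P k d := fun n => coeff (n + Finsupp.single (Fin.last d) e) f

/-- the remainder of the division by `X_last ^ e` -/
noncomputable def rho (e : ℕ) (f : P k d) : P k d := fun n => if n (Fin.last d) < e then coeff n f else 0

theorem coeff_tau (e : ℕ) (f : P k d) (n : Fin (d + 1) →₀ ℕ) :
    coeff n (tau e f) = coeff (n + Finsupp.single (Fin.last d) e) f := rfl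

theorem coeff_rho (e : ℕ) (f : P k d) (n : Fin (d + 1) →₀ ℕ) :
    coeff n (rho e f) = if n (Fin.last d) < e then coeff n f else 0 := rfl

theorem tau_add (e : ℕ) (f g : P k d) : tau e (f + g) = tau e f + tau e g := by
  ext n
  rw [map_add, coeff_tau, coeff_tau, coeff_tau, map_add]

theorem tau_neg (e : ℕ) (f : P k d) : tau e (-f) = -tau e f := by
  ext n
  rw [map_neg, coeff_tau, coeff_tau, map_neg]

theorem tau_sub (e : ℕ) (f g : P k d) : tau e (f - g) = tau e f - tau e g := by
  rw [sub_eq_add_neg, tau_add, tau_neg, ← sub_eq_add_neg]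

theorem rho_sub (e : ℕ) (f g : P k d) : rho e (f - g) = rho e f - rho e g := by
  ext n
  rw [map_sub, coeff_rho, coeff_rho, coeff_rho, map_sub]
  split_ifs
  · rfl
  · rw [sub_zero]

theorem Od.tau {r : ℕ} {f : P k d} (e : ℕ) (hf : Od r f) : Od r (tau e f) := by
  intro n hn
  rw [coeff_tau]
  refine hf _ ?_
  rwa [dl_add, dl_single, add_zero]

/-- the power of the last variable -/
noncomputable def Xe (k : Type) [Field k] (d e : ℕ) : P k d :=
  monomial (Finsupp.single (Fin.last d) e) (1 : k)

theorem coeff_Xe_mul (e : ℕ) (f : P k d) (n : Fin (d + 1) →₀ ℕ) :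
    coeff n (Xe k d e * f) = if e ≤ n (Fin.last d) then
      coeff (n - Finsupp.single (Fin.last d) e) f else 0 := by
  classical
  unfold Xe
  rw [coeff_monomial_mul]
  have h : Finsupp.single (Fin.last d) e ≤ n ↔ e ≤ n (Fin.last d) := Finsupp.single_le_iff
  by_cases he : e ≤ n (Fin.last d)
  · rw [if_pos (h.2 he), if_pos he, one_mul]
  · rw [if_neg (fun h' => he (h.1 h')), if_neg he]

theorem split (e : ℕ) (f : P k d) : f = Xe k d e * tau e f + rho e f := by
  ext n
  rw [map_add, coeff_Xe_mul, coeff_rho]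
  by_cases he : e ≤ n (Fin.last d)
  · rw [if_pos he, if_neg (not_lt.2 he), add_zero, coeff_tau, tsub_add_cancel_of_le]
    exact Finsupp.single_le_iff.2 he
  · rw [if_neg he, if_pos (not_le.1 he), zero_add]

/-- **Contraction.** -/
theorem exists_fix (e : ℕ) {v : P k d} (hv : Od 1 v) (g : P k d) :
    ∃ w : P k d, w = tau e g - tau e (w * v) := by
  obtain ⟨W, hW⟩ : ∃ W : ℕ → P k d, ∀ i, W (i + 1) = tau e g - tau e (W i * v) :=
    ⟨fun i => Nat.rec 0 (fun _ w => tau e g - tau e (w * v)) i, fun i => rfl⟩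
  have h1 : ∀ i, Od i (W (i + 1) - W i) := by
    intro i
    induction i with
    | zero => exact od_zero _
    | succ i ih =>
      have h2 : W (i + 1 + 1) - W (i + 1) = -tau e ((W (i + 1) - W i) * v) := by
        rw [sub_mul, tau_sub, hW (i + 1)]
        have h3 := hW i
        rw [h3]
        ring
      rw [h2]
      exact ((ih.mul hv).tau e).neg
  have h2 : ∀ i j, i ≤ j → Od i (W j - W i) := by
    intro i j hij
    induction j, hij using Nat.le_induction with
    | base =>
      rw [sub_self]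
      intro n _
      rw [map_zero]
    | succ j hj ih =>
      have h3 : W (j + 1) - W i = (W (j + 1) - W j) + (W j - W i) := by ring
      rw [h3]
      exact ((h1 j).mono hj).add ih
  let w : P k d := fun n => coeff n (W (dl n + 1))
  have hw : ∀ n, coeff n w = coeff n (W (dl n + 1)) := fun n => rfl
  have h3 : ∀ i, Od i (w - W i) := by
    intro i n hn
    rw [map_sub, hw]
    have := h2 (dl n + 1) i hn n (Nat.lt_succ_self _)
    rw [map_sub] at this
    rw [sub_eq_zero] at this ⊢
    exact this.symm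
  refine ⟨w, ?_⟩
  rw [← sub_eq_zero]
  ext n
  rw [map_zero]
  have h4 : w - (tau e g - tau e (w * v)) =
      (w - W (dl n + 1 + 1)) + tau e ((w - W (dl n + 1)) * v) := by
    rw [hW (dl n + 1), sub_mul, tau_sub]
    ring
  rw [h4]
  exact (((h3 (dl n + 1 + 1)).mono (Nat.le_succ _)).add
    (((h3 (dl n + 1)).mul hv).tau e |>.mono (Nat.le_succ _))) n (Nat.lt_succ_self _)

/-- **Weierstrass division.** -/
theorem division {e : ℕ} {c : P k d} (h1 : coeff (Finsupp.single (Fin.last d) e) c ≠ 0)
    (h2 : ∀ j < e, coeff (Finsupp.single (Fin.last d) j) c = 0) (g : P k d) :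
    ∃ q r : P k d, g = q * c + rho e r := by
  set u := tau e c with hu
  set m := rho e c with hm
  have hc : c = Xe k d e * u + m := split e c
  have hu0 : constantCoeff u ≠ 0 := by
    rw [← coeff_zero_eq_constantCoeff_apply, hu, coeff_tau, zero_add]
    exact h1
  have huu : u⁻¹ * u = 1 := MvPowerSeries.inv_mul_cancel _ hu0
  have hm1 : Od 1 m := by
    intro n hn
    rw [hm, coeff_rho]
    have h3 : dl n = 0 := by omega
    split_ifs with h4
    · rw [eq_single_of_dl h3]
      exact h2 _ h4
    · rfl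
  have hv : Od 1 (u⁻¹ * m) := by
    have := (od_zero (u⁻¹)).mul hm1
    rwa [zero_add] at this
  obtain ⟨w, hw⟩ := exists_fix e hv g
  refine ⟨w * u⁻¹, g - w * (u⁻¹ * m), ?_⟩
  have h5 := split e g
  have h6 := split e (w * (u⁻¹ * m))
  have h7 : w * u⁻¹ * c = Xe k d e * w + w * (u⁻¹ * m) := by
    calc w * u⁻¹ * c = w * u⁻¹ * (Xe k d e * u + m) := by rw [← hc]
      _ = Xe k d e * w * (u⁻¹ * u) + w * (u⁻¹ * m) := by ring
      _ = Xe k d e * w + w * (u⁻¹ * m) := by rw [huu, mul_one]
  rw [rho_sub, h7]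
  have h8 : Xe k d e * w = Xe k d e * tau e g - Xe k d e * tau e (w * (u⁻¹ * m)) := by
    rw [← mul_sub, ← hw]
  have h9 : rho e g = g - Xe k d e * tau e g := by
    rw [eq_sub_iff_add_eq, add_comm]
    exact h5.symm
  have h10 : rho e (w * (u⁻¹ * m)) = w * (u⁻¹ * m) - Xe k d e * tau e (w * (u⁻¹ * m)) := by
    rw [eq_sub_iff_add_eq, add_comm]
    exact h6.symm
  rw [h9, h10, h8]
  ring

/-- the series which do not involve the last variable -/
def S (k : Type) [Field k] (d : ℕ) : Subring (P k d) where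
  carrier := {f | ∀ n : Fin (d + 1) →₀ ℕ, n (Fin.last d) ≠ 0 → coeff n f = 0}
  zero_mem' := fun n _ => by rw [map_zero]
  one_mem' := fun n hn => by
    classical
    rw [coeff_one, if_neg]
    rintro rfl
    exact hn rfl
  add_mem' := fun {f g} hf hg n hn => by rw [map_add, hf n hn, hg n hn, add_zero]
  neg_mem' := fun {f} hf n hn => by rw [map_neg, hf n hn, neg_zero]
  mul_mem' := fun {f g} hf hg n hn => by
    classical
    rw [coeff_mul]
    refine Finset.sum_eq_zero fun x hx => ?_
    rw [Finset.HasAntidiagonal.mem_antidiagonal] at hx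
    by_cases h : x.1 (Fin.last d) = 0
    · rw [hg x.2, mul_zero]
      intro h'
      apply hn
      rw [← hx, Finsupp.add_apply, h, h']
    · rw [hf x.1 h, zero_mul]

/-- the coefficient of the power of the last variable -/
noncomputable def cf (i : ℕ) (f : P k d) : P k d := fun n =>
  if n (Fin.last d) = 0 then coeff (n + Finsupp.single (Fin.last d) i) f else 0

theorem coeff_cf (i : ℕ) (f : P k d) (n : Fin (d + 1) →₀ ℕ) : coeff n (cf i f) =
    if n (Fin.last d) = 0 then coeff (n + Finsupp.single (Fin.last d) i) f else 0 := rfl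

theorem cf_mem (i : ℕ) (f : P k d) : cf i f ∈ S k d := by
  intro n hn
  rw [coeff_cf, if_neg hn]

theorem rho_eq_sum (e : ℕ) (f : P k d) :
    rho e f = ∑ i ∈ Finset.range e, Xe k d i * cf i f := by
  ext n
  rw [map_sum, coeff_rho]
  have h1 : ∀ i, coeff n (Xe k d i * cf i f) = if i = n (Fin.last d) then coeff n f else 0 := by
    intro i
    rw [coeff_Xe_mul, coeff_cf]
    by_cases h : i ≤ n (Fin.last d)
    · have h2 : Finsupp.single (Fin.last d) i ≤ n := Finsupp.single_le_iff.2 h
      rw [if_pos h, tsub_add_cancel_of_le h2, Finsupp.tsub_apply, Finsupp.single_apply, if_pos rfl]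
      by_cases h3 : i = n (Fin.last d)
      · rw [if_pos h3, if_pos (by omega)]
      · rw [if_neg h3, if_neg (by omega)]
    · rw [if_neg h, if_neg (by omega)]
  rw [Finset.sum_congr rfl fun i _ => h1 i, Finset.sum_ite_eq']
  simp only [Finset.mem_range]

theorem finite_quot {e : ℕ} {c : P k d} (h1 : coeff (Finsupp.single (Fin.last d) e) c ≠ 0)
    (h2 : ∀ j < e, coeff (Finsupp.single (Fin.last d) j) c = 0) :
    Module.Finite (S k d) (P k d ⧸ Ideal.span {c}) := by
  classical
  refine ⟨⟨(Finset.range e).image fun i => Ideal.Quotient.mk (Ideal.span {c}) (Xe k d i), ?_⟩⟩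
  rw [eq_top_iff]
  rintro x -
  obtain ⟨g, rfl⟩ := Ideal.Quotient.mk_surjective x
  obtain ⟨q, r, hg⟩ := division h1 h2 g
  have h3 : Ideal.Quotient.mk (Ideal.span {c}) (q * c) = 0 :=
    Ideal.Quotient.eq_zero_iff_mem.2 (Ideal.mul_mem_left _ _ (Ideal.mem_span_singleton_self c))
  rw [hg, map_add, h3, zero_add, rho_eq_sum, map_sum]
  refine Submodule.sum_mem _ fun i hi => ?_
  have h4 : Ideal.Quotient.mk (Ideal.span {c}) (Xe k d i * cf i r) =
      (⟨cf i r, cf_mem i r⟩ : S k d) • Ideal.Quotient.mk (Ideal.span {c}) (Xe k d i) := by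
    rw [mul_comm, map_mul]
    rfl
  rw [h4]
  refine Submodule.smul_mem _ _ (Submodule.subset_span ?_)
  rw [Finset.coe_image]
  exact ⟨i, hi, rfl⟩

end Pool.Agent.H807.WEI

open Pool.Agent.H807.WEI in
/-- Weierstrass elimination -/
theorem Pool.Agent.H807.wei : Pool.Agent.H867.FT.S_WEI := by
  classical
  intro k _ d e c₁ c₂ he hnz
  have hex : ∃ e, MvPowerSeries.coeff (Finsupp.single (Fin.last d) e) c₁ ≠ 0 := ⟨e, he⟩
  have h1 := Nat.find_spec hex
  have h2 : ∀ j < Nat.find hex, MvPowerSeries.coeff (Finsupp.single (Fin.last d) j) c₁ = 0 :=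
    fun j hj => by
      by_contra h
      exact Nat.find_min hex hj h
  have : Module.Finite (S k d) (P k d ⧸ Ideal.span {c₁}) := finite_quot h1 h2
  obtain ⟨p, hp, hp0⟩ := IsIntegral.of_finite (S k d) (Ideal.Quotient.mk (Ideal.span {c₁}) c₂)
  obtain ⟨q, hq, hq'⟩ := Polynomial.exists_eq_pow_rootMultiplicity_mul_and_not_dvd p hp.ne_zero 0
  rw [Polynomial.C_0, sub_zero, Polynomial.X_dvd_iff] at hq'
  set m := Polynomial.rootMultiplicity 0 p with hm
  rw [hq, Polynomial.C_0, sub_zero, Polynomial.eval₂_mul, Polynomial.eval₂_pow,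
    Polynomial.eval₂_X] at hp0
  -- the polynomial in `c₂`
  have hcomp : ∀ f : Polynomial (S k d),
      Polynomial.eval₂ (algebraMap (S k d) (P k d ⧸ Ideal.span {c₁}))
        (Ideal.Quotient.mk (Ideal.span {c₁}) c₂) f =
      Ideal.Quotient.mk (Ideal.span {c₁}) (Polynomial.eval₂ (S k d).subtype c₂ f) := by
    intro f
    rw [Polynomial.hom_eval₂]
    rfl
  rw [hcomp, ← map_pow, ← map_mul, Ideal.Quotient.eq_zero_iff_mem, Ideal.mem_span_singleton] at hp0
  have h3 : ∀ (j : ℕ) (u : P k d), c₁ ∣ c₂ ^ j * u → c₁ ∣ u := by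
    intro j
    induction j with
    | zero =>
      intro u hu
      rwa [pow_zero, one_mul] at hu
    | succ j ih =>
      intro u hu
      rw [pow_succ', mul_assoc] at hu
      exact ih u (hnz _ hu)
  have h4 := h3 m _ hp0
  refine ⟨((q.coeff 0 : S k d) : P k d), ?_, ?_, ?_⟩
  · intro h
    exact hq' (Subtype.ext h)
  · exact (q.coeff 0).2
  · have h5 : Polynomial.eval₂ (S k d).subtype c₂ q =
        Polynomial.eval₂ (S k d).subtype c₂ q.divX * c₂ + ((q.coeff 0 : S k d) : P k d) := by
      conv_lhs => rw [← Polynomial.divX_mul_X_add q]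
      rw [Polynomial.eval₂_add, Polynomial.eval₂_mul, Polynomial.eval₂_X, Polynomial.eval₂_C]
      rfl
    have h6 : ((q.coeff 0 : S k d) : P k d) = Polynomial.eval₂ (S k d).subtype c₂ q -
        Polynomial.eval₂ (S k d).subtype c₂ q.divX * c₂ := by
      rw [h5]
      ring
    rw [h6]
    refine Ideal.sub_mem _ ?_ ?_
    · exact Ideal.mem_of_dvd _ h4 (Ideal.subset_span (by simp))
    · exact Ideal.mul_mem_left _ _ (Ideal.subset_span (by simp))
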