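import Pool.Agent.H770.GS.TB

/-!
Project TB of helper770: the section function of the directions `(a, a, b, …, b)`.
-/

set_option autoImplicit false

open MeasureTheory Set intervalIntegral Filter Topology

namespace Pool.Agent.H807.TB

open Pool.Agent.H770.GS Pool.Agent.Helper82.GC

/-! ### the density of a pair -/

theorem I2_nonpos {q : ℝ} (hq : q ≤ 0) : I2 q ≤ 0 := by
  unfold I2
  rw [intervalIntegral.integral_symm, neg_nonpos]
  exact intervalIntegral.integral_nonneg (by linarith) fun p _ => (Real.exp_pos _).le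

theorem pt_zero {r x : ℝ} (h : 2 * r ≤ |x|) : pt r x = 0 := by
  unfold pt
  apply max_eq_right
  unfold fL
  exact mul_nonpos_of_nonneg_of_nonpos (Real.exp_pos _).le (I2_nonpos (by linarith))

theorem pt_fL {r x : ℝ} (h : |x| ≤ 2 * r) : pt r x = fL r |x| := max_eq_left (fL_nonneg h)

theorem pt_min {r : ℝ} (x : ℝ) : pt r x = fL r (min |x| (2 * r)) := by
  rcases le_total |x| (2 * r) with h | h
  · rw [min_eq_left h, pt_fL h]
  · rw [min_eq_right h, pt_zero h, fL_end]

theorem pt_even (r x : ℝ) : pt r (-x) = pt r x := by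
  unfold pt
  rw [abs_neg]

theorem pt_cont (r : ℝ) : Continuous (pt r) :=
  ((fL_cont r).comp continuous_abs).max continuous_const

theorem pt_lip {r : ℝ} (hr : 0 < r) : ∃ L : ℝ, 0 ≤ L ∧ ∀ x y, |pt r x - pt r y| ≤ L * |x - y| := by
  obtain ⟨L, hL⟩ := (isCompact_Icc (a := (0 : ℝ)) (b := 2 * r)).exists_bound_of_continuousOn
    (nL_cont r).continuousOn
  have hL0 : 0 ≤ L := (norm_nonneg _).trans (hL 0 ⟨le_rfl, by linarith⟩)
  refine ⟨L, hL0, fun x y => ?_⟩
  have hm : ∀ x : ℝ, min |x| (2 * r) ∈ Icc (0 : ℝ) (2 * r) := fun x =>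
    ⟨le_min (abs_nonneg x) (by linarith), min_le_right _ _⟩
  rw [pt_min, pt_min]
  have h1 := Convex.norm_image_sub_le_of_norm_hasDerivWithin_le (𝕜 := ℝ) (f := fL r)
    (f' := fun z => -nL r z) (s := Icc (0 : ℝ) (2 * r)) (C := L)
    (fun z _ => (fL_deriv r z).hasDerivWithinAt)
    (fun z hz => by rw [norm_neg]; exact hL z hz) (convex_Icc _ _) (hm y) (hm x)
  rw [Real.norm_eq_abs, Real.norm_eq_abs] at h1
  refine h1.trans (mul_le_mul_of_nonneg_left ?_ hL0)
  refine (abs_min_sub_min_le_max _ _ _ _).trans ?_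
  rw [sub_self, abs_zero]
  exact max_le (abs_abs_sub_abs_le_abs_sub x y) (abs_nonneg _)

theorem pt_bdd (r : ℝ) (hr : 0 < r) : ∃ C : ℝ, ∀ x, |pt r x| ≤ C := by
  obtain ⟨C, hC⟩ := (isCompact_Icc (a := (0 : ℝ)) (b := 2 * r)).exists_bound_of_continuousOn
    (fL_cont r).continuousOn
  refine ⟨C, fun x => ?_⟩
  rw [pt_min, ← Real.norm_eq_abs]
  exact hC _ ⟨le_min (abs_nonneg x) (by linarith), min_le_right _ _⟩

/-! ### the Gaussian kernel -/

theorem gs_one (y : ℝ) : gs 1 y = 1 / Real.sqrt (2 * Real.pi) * Real.exp (-(1 / 2) * y ^ 2) := by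
  unfold gs
  rw [one_pow, mul_one, mul_one]
  congr 2
  ring

theorem gs_scale {τ : ℝ} (hτ : 0 < τ) (y : ℝ) : gs τ (τ * y) = τ⁻¹ * gs 1 y := by
  unfold gs
  rw [Real.sqrt_mul (by positivity), Real.sqrt_sq hτ.le]
  have h1 : -(τ * y) ^ 2 / (2 * τ ^ 2) = -y ^ 2 / (2 * 1 ^ 2) := by
    field_simp
  rw [h1, one_pow, mul_one]
  field_simp

theorem gs_one_int : Integrable (gs 1) := by
  have h : gs 1 = fun y => 1 / Real.sqrt (2 * Real.pi) * Real.exp (-(1 / 2) * y ^ 2) :=
    funext gs_one
  rw [h]
  exact (integrable_exp_neg_mul_sq (by norm_num)).const_mul _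

theorem gs_one_mass : ∫ y, gs 1 y = 1 := by
  simp only [gs_one]
  rw [MeasureTheory.integral_const_mul, integral_gaussian]
  have h1 : Real.pi / (1 / 2) = 2 * Real.pi := by ring
  rw [h1, one_div, inv_mul_cancel₀]
  have := Real.pi_pos
  positivity

theorem gs_one_abs : Integrable fun y => |y| * gs 1 y := by
  have h := ((integrable_mul_exp_neg_mul_sq (b := 1 / 2) (by norm_num)).norm).const_mul
    (1 / Real.sqrt (2 * Real.pi))
  refine h.congr (Eventually.of_forall fun y => ?_)
  simp only
  rw [gs_one, norm_mul, Real.norm_eq_abs, Real.norm_of_nonneg (Real.exp_pos _).le]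
  ring

/-! ### the smoothed density of a pair -/

theorem pair_line {r a τ : ℝ} (hr : 0 < r) (v : ℝ) :
    cv r a (cv r a (gs τ)) v = ∫ z, pt r z * gs τ (v + a * z) := by
  have hg := gs_cont τ
  have hc : Continuous fun u => gs τ (v + a * u) := by fun_prop
  have e : cv r a (cv r a (gs τ)) v =
      ∫ x in (-r)..r, ∫ y in (-r)..r, W x * (W y * (fun s => gs τ (v + a * s)) (x + y)) := by
    unfold cv
    refine intervalIntegral.integral_congr fun x _ => ?_
    try simp only
    rw [← intervalIntegral.integral_const_mul]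
    refine intervalIntegral.integral_congr fun y _ => ?_
    try simp only
    rw [show v + a * x + a * y = v + a * (x + y) by ring]
  rw [e, fold hc hr]
  have hp := pt_cont r
  have hF : Continuous fun z => pt r z * gs τ (v + a * z) := hp.mul hc
  have h1 : ∫ z, pt r z * gs τ (v + a * z) =
      ∫ z in (-(2 * r))..(2 * r), pt r z * gs τ (v + a * z) := by
    rw [intervalIntegral.integral_of_le (by linarith)]
    symm
    apply setIntegral_eq_integral_of_forall_compl_eq_zero
    intro x hx
    rw [pt_zero, zero_mul]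
    by_contra hlt
    rw [not_le, abs_lt] at hlt
    exact hx ⟨hlt.1, hlt.2.le⟩
  have h2 : ∫ z in (-(2 * r))..0, pt r z * gs τ (v + a * z) =
      ∫ z in (0 : ℝ)..(2 * r), pt r (-z) * gs τ (v + a * (-z)) := by
    rw [intervalIntegral.integral_comp_neg (fun z => pt r z * gs τ (v + a * z)), neg_zero]
  rw [h1, ← intervalIntegral.integral_add_adjacent_intervals (hF.intervalIntegrable _ 0)
    (hF.intervalIntegrable 0 _), h2, ← intervalIntegral.integral_add]
  · refine intervalIntegral.integral_congr fun z hz => ?_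
    rw [uIcc_of_le (by linarith)] at hz
    rw [pt_even, pt_fL (by rw [abs_of_nonneg hz.1]; exact hz.2), abs_of_nonneg hz.1]
    ring
  · exact Continuous.intervalIntegrable (by fun_prop) _ _
  · exact hF.intervalIntegrable _ _

theorem pair_sub {r a τ : ℝ} (hr : 0 < r) (ha : 0 < a) (hτ : 0 < τ) (v : ℝ) :
    cv r a (cv r a (gs τ)) v = 1 / a * ∫ y, pt r ((τ * y - v) / a) * gs 1 y := by
  rw [pair_line hr]
  set F : ℝ → ℝ := fun z => pt r z * gs τ (v + a * z) with hF
  have hc : 0 < τ / a := by positivity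
  have h1 := Measure.integral_comp_mul_left (fun z => F (z + -(v / a))) (τ / a)
  have h2 : ∫ z, F (z + -(v / a)) = ∫ z, F z := integral_add_right_eq_self F _
  rw [h2, smul_eq_mul, abs_of_pos (inv_pos.2 hc)] at h1
  have h3 : ∀ y, F (τ / a * y + -(v / a)) = τ⁻¹ * (pt r ((τ * y - v) / a) * gs 1 y) := by
    intro y
    rw [hF]
    simp only
    have e1 : τ / a * y + -(v / a) = (τ * y - v) / a := by field_simp; ring
    have e2 : v + a * (τ / a * y + -(v / a)) = τ * y := by field_simp; ring
    rw [e2, e1, gs_scale hτ]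
    ring
  simp only [h3] at h1
  rw [MeasureTheory.integral_const_mul] at h1
  have h4 : ∫ z, F z = (τ / a) * (τ⁻¹ * ∫ y, pt r ((τ * y - v) / a) * gs 1 y) := by
    rw [h1]
    field_simp
  rw [h4]
  field_simp

theorem pair_close {r a : ℝ} (hr : 0 < r) (ha : 0 < a) : ∃ K : ℝ, 0 ≤ K ∧ ∀ τ : ℝ, 0 < τ →
    ∀ v, |cv r a (cv r a (gs τ)) v - 1 / a * pt r (1 / a * v)| ≤ K * τ := by
  obtain ⟨L, hL0, hL⟩ := pt_lip hr
  obtain ⟨C, hC⟩ := pt_bdd r hr
  set c1 : ℝ := ∫ y, |y| * gs 1 y with hc1
  have hc10 : 0 ≤ c1 := integral_nonneg fun y => mul_nonneg (abs_nonneg _) (gs_nonneg 1 y)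
  refine ⟨1 / a * (L / a * c1), by positivity, fun τ hτ v => ?_⟩
  have hi : Integrable fun y => pt r ((τ * y - v) / a) * gs 1 y := by
    refine gs_one_int.bdd_mul (c := C) ?_ (Eventually.of_forall fun y => hC _)
    refine Continuous.aestronglyMeasurable ?_
    have := pt_cont r
    fun_prop
  have h1 : cv r a (cv r a (gs τ)) v - 1 / a * pt r (1 / a * v) =
      1 / a * ∫ y, (pt r ((τ * y - v) / a) - pt r (1 / a * v)) * gs 1 y := by
    have h2 : ∫ y, (pt r ((τ * y - v) / a) - pt r (1 / a * v)) * gs 1 y =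
        (∫ y, pt r ((τ * y - v) / a) * gs 1 y) - pt r (1 / a * v) := by
      simp only [sub_mul]
      rw [MeasureTheory.integral_sub hi (gs_one_int.const_mul _),
        MeasureTheory.integral_const_mul, gs_one_mass, mul_one]
    rw [h2, pair_sub hr ha hτ]
    ring
  rw [h1, abs_mul, abs_of_pos (by positivity : 0 < 1 / a), mul_assoc]
  refine mul_le_mul_of_nonneg_left ?_ (by positivity)
  have h3 : ‖∫ y, (pt r ((τ * y - v) / a) - pt r (1 / a * v)) * gs 1 y‖ ≤
      ∫ y, L * (τ / a) * (|y| * gs 1 y) := by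
    refine norm_integral_le_of_norm_le (gs_one_abs.const_mul _) (Eventually.of_forall fun y => ?_)
    rw [norm_mul, Real.norm_eq_abs, Real.norm_of_nonneg (gs_nonneg 1 y), ← mul_assoc]
    refine mul_le_mul_of_nonneg_right ?_ (gs_nonneg 1 y)
    rw [← pt_even r (1 / a * v)]
    refine (hL _ _).trans ?_
    have h4 : (τ * y - v) / a - -(1 / a * v) = τ / a * y := by field_simp; ring
    rw [h4, abs_mul, abs_of_pos (by positivity : 0 < τ / a)]
    exact le_of_eq (by ring)
  rw [MeasureTheory.integral_const_mul, ← hc1, Real.norm_eq_abs] at h3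
  refine h3.trans (le_of_eq ?_)
  ring

/-! ### iterated convolutions -/

theorem cv_close {r b : ℝ} (hr : 0 < r) {g h : ℝ → ℝ} (hg : Continuous g) (hh : Continuous h) {δ : ℝ}
    (hd : ∀ v, |g v - h v| ≤ δ) (v : ℝ) :
    |cv r b g v - cv r b h v| ≤ (∫ u in (-r)..r, W u) * δ := by
  have hW := W_cont
  unfold cv
  rw [← intervalIntegral.integral_sub
    (Continuous.intervalIntegrable (by fun_prop) _ _)
    (Continuous.intervalIntegrable (by fun_prop) _ _), ← Real.norm_eq_abs,
    ← intervalIntegral.integral_mul_const]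
  refine intervalIntegral.norm_integral_le_of_norm_le (by linarith)
    (Eventually.of_forall fun u _ => ?_) (Continuous.intervalIntegrable (by fun_prop) _ _)
  rw [← mul_sub, norm_mul, Real.norm_of_nonneg (W_pos u).le, Real.norm_eq_abs]
  exact mul_le_mul_of_nonneg_left (hd _) (W_pos u).le

theorem dens_close {r : ℝ} (hr : 0 < r) {g h : ℝ → ℝ} (hg : Continuous g) (hh : Continuous h)
    {δ : ℝ} (hd : ∀ v, |g v - h v| ≤ δ) (L : List ℝ) :
    ∀ v, |dens r L g v - dens r L h v| ≤ (∫ u in (-r)..r, W u) ^ L.length * δ := by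
  induction L with
  | nil =>
    intro v
    rw [dens_nil, dens_nil, List.length_nil, pow_zero, one_mul]
    exact hd v
  | cons b L ih =>
    intro v
    rw [dens_cons, dens_cons, List.length_cons, pow_succ']
    refine (cv_close hr (dens_cont hg L) (dens_cont hh L) ih v).trans (le_of_eq ?_)
    ring

theorem dens_smul {r α : ℝ} (g : ℝ → ℝ) (L : List ℝ) :
    dens r L (fun v => α * g v) = fun v => α * dens r L g v := by
  induction L with
  | nil => rfl
  | cons b L ih => rw [dens_cons, ih, cv_smul]; rfl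

theorem dens_scale {r x : ℝ} (g : ℝ → ℝ) (L : List ℝ) :
    ∀ v, dens r (L.map fun b => x * b) g (x * v) = dens r L (fun u => g (x * u)) v := by
  induction L with
  | nil => intro v; rfl
  | cons b L ih =>
    intro v
    rw [List.map_cons, dens_cons, dens_cons, cv_scale]
    congr 1
    funext u
    exact ih u

theorem t_link : S_link := by
  intro r a b k hr hk ha hb hab
  have hkR : (0 : ℝ) < k := by exact_mod_cast hk
  set θ := dirAB k a b with hθ
  have hlen : (a :: a :: List.replicate k b).length = k + 2 := by simp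
  have hnorm : ‖θ‖ = 1 := by
    refine vec_norm hlen ?_
    simp
    linarith
  have h1 := dens_tendsto hr θ hnorm
  have h2 : (List.ofFn fun i => θ i) = a :: a :: List.replicate k b := ofFn_vec hlen
  rw [h2] at h1
  -- the smoothed density
  have h3 : ∀ τ, dens r (a :: a :: List.replicate k b) (gs τ) 0 =
      dens r (List.replicate k b) (cv r a (cv r a (gs τ))) 0 := by
    intro τ
    have hp : (a :: a :: List.replicate k b).Perm (List.replicate k b ++ [a, a]) := by
      have := List.perm_append_comm (l₁ := [a, a]) (l₂ := List.replicate k b)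
      exact this
    rw [dens_perm (gs_cont τ) hp, dens_append, dens_cons, dens_cons, dens_nil]
  simp only [h3] at h1
  obtain ⟨K, hK0, hK⟩ := pair_close hr ha
  have hq : Continuous fun v => 1 / a * pt r (1 / a * v) := by
    have := pt_cont r
    fun_prop
  have h4 : Tendsto (fun τ : ℝ => dens r (List.replicate k b) (cv r a (cv r a (gs τ))) 0)
      (nhdsWithin 0 (Ioi 0))
      (nhds (dens r (List.replicate k b) (fun v => 1 / a * pt r (1 / a * v)) 0)) := by
    rw [tendsto_iff_norm_sub_tendsto_zero]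
    have h5 : Tendsto (fun τ : ℝ => (∫ u in (-r)..r, W u) ^ k * (K * τ)) (nhdsWithin 0 (Ioi 0))
        (nhds 0) := by
      have h6 : Continuous fun τ : ℝ => (∫ u in (-r)..r, W u) ^ k * (K * τ) := by fun_prop
      have h7 := h6.tendsto 0
      simp only [mul_zero] at h7
      exact h7.mono_left nhdsWithin_le_nhds
    refine squeeze_zero' (Eventually.of_forall fun τ => norm_nonneg _) ?_ h5
    filter_upwards [self_mem_nhdsWithin] with τ hτ
    have h8 := dens_close hr (cv_cont (cv_cont (gs_cont τ))) hq (hK τ hτ) (List.replicate k b) 0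
    rw [List.length_replicate] at h8
    exact h8
  have h9 := tendsto_nhds_unique h1 h4
  rw [h9]
  -- the scaling
  unfold FF
  have hs : 2 + k * b ^ 2 / a ^ 2 = (1 / a) ^ 2 := by
    have : 2 + k * b ^ 2 / a ^ 2 = (2 * a ^ 2 + k * b ^ 2) / a ^ 2 := by field_simp
    rw [this, hab, one_div, one_div, inv_pow]
  rw [hs, Real.sqrt_sq (by positivity), dens_smul]
  change 1 / a * dens r (List.replicate k b) (fun v => pt r (1 / a * v)) 0 = _
  congr 1
  have hss : Real.sqrt (k * b ^ 2 / a ^ 2) = Real.sqrt k * (b / a) := by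
    rw [Real.sqrt_div' _ (by positivity), Real.sqrt_mul hkR.le, Real.sqrt_sq hb, Real.sqrt_sq ha.le]
    ring
  have e1 := dens_scale (r := r) (x := 1 / a) (pt r) (List.replicate k b) 0
  have e2 := dens_scale (r := r) (x := Real.sqrt (k * b ^ 2 / a ^ 2)) (pt r)
    (List.replicate k (1 / Real.sqrt k)) 0
  rw [← e1, ← e2, mul_zero, mul_zero, List.map_replicate, List.map_replicate]
  congr 2
  rw [hss]
  have h10 : Real.sqrt k ≠ 0 := (Real.sqrt_pos.2 hkR).ne'
  field_simp

end Pool.Agent.H807.TB
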